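import Pool.Agent.W886.CS.Stm1
import Pool.Agent.H620R2.Gauge.A2

/-! Project CS: the search algorithm. -/

set_option autoImplicit false

namespace Pool.Agent.W585.CS.CSSEA

open Pool.Agent.NPC Pool.Agent.H620R2.Gauge Pool.Agent.H622R2

/-- the action -/
def sD (P : Polynomial ℕ) (y : List Bool) : List Bool :=
  if (unpair y).2.length < P.eval (unpair y).1.length + 1 then
    false :: pairBits (unpair y).1 ((unpair y).2 ++ [true])
  else [true, (unpair y).2.reverse.head?.getD false]

theorem poly_sD (P : Polynomial ℕ) : Poly (sD P) := by
  have hx : Poly (fun y => (unpair y).1) := Poly.fst poly_unpair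
  have ha : Poly (fun y => (unpair y).2) := Poly.snd poly_unpair
  have hl : Poly (fun y => (unpair y).2.length) := Poly.length ha
  have hp : Poly (fun y => P.eval (unpair y).1.length + 1) :=
    Poly.succ (UPoly.toPoly ((UPoly.length hx).eval P))
  refine Poly.ite (Poly.decide_lt hl hp) ?_ ?_
  · exact Poly.cons (NPC.Poly.const _) (poly_pairBits hx
      (Poly.append ha (NPC.Poly.const _)))
  · exact Poly.cons (NPC.Poly.const _) (Poly.cons (Poly.head?_getD (Poly.reverse ha) false)
      (NPC.Poly.const _))

/-- the algorithm -/
noncomputable def sAlg (P : Polynomial ℕ) : Alg where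
  D := sD P
  poly := polyTime_of_poly_list (poly_sD P)
  p := P + 2

theorem sD_pair (P : Polynomial ℕ) (x a : List Bool) : sD P (pairBits x a) =
    if a.length < P.eval x.length + 1 then false :: pairBits x (a ++ [true])
    else [true, a.reverse.head?.getD false] := by
  unfold sD
  rw [unpair_pairBits]

theorem run_s (X : Oracle) (P : Polynomial ℕ) (x s : List Bool)
    (hs : s.length = P.eval x.length + 1)
    (hb : ∀ j < P.eval x.length + 1, X (pairBits x (s.take j ++ [true])) = true ↔
      s[j]? = some true) : ∀ (n j : ℕ), j ≤ P.eval x.length + 1 → P.eval x.length + 2 ≤ j + n →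
    (sAlg P).run X x n (s.take j) = some [s.getLast?.getD false] := by
  intro n
  induction n with
  | zero => intro j h1 h2; omega
  | succ n ih =>
    intro j h1 h2
    rw [Alg.run]
    change (match sD P (pairBits x (s.take j)) with
      | [] => _ | true :: z => _ | false :: q => _) = _
    rw [sD_pair]
    have hlen : (s.take j).length = j := by
      rw [List.length_take]
      omega
    rcases Nat.lt_or_ge j (P.eval x.length + 1) with h | h
    · rw [if_pos (by rw [hlen]; exact h)]
      have hj : j < s.length := by omega
      have h3 : s.take j ++ [X (pairBits x (s.take j ++ [true]))] = s.take (j + 1) := by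
        have h4 : X (pairBits x (s.take j ++ [true])) = s[j] := by
          have h5 := hb j h
          rw [List.getElem?_eq_getElem hj, Option.some.injEq] at h5
          cases h6 : s[j] <;> cases h7 : X (pairBits x (s.take j ++ [true])) <;>
            simp_all
        rw [h4, List.take_add_one, List.getElem?_eq_getElem hj]
        rfl
      show (sAlg P).run X x n (s.take j ++ [X (pairBits x (s.take j ++ [true]))]) = _
      rw [h3]
      exact ih (j + 1) (by omega) (by omega)
    · rw [if_neg (by rw [hlen]; omega)]
      have h3 : s.take j = s := List.take_of_length_le (by omega)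
      rw [h3, List.head?_reverse]

theorem task : Pool.Agent.W886.CS.S_SEA := by
  intro X P L h
  choose s hs hb hl using h
  refine ⟨fun x => [(s x).getLast?.getD false], ⟨sAlg P, fun x => ?_⟩, fun x => ?_⟩
  · have h1 := run_s X P x (s x) (hs x) (hb x) (P.eval x.length + 2) 0 (by omega) (by omega)
    rw [List.take_zero] at h1
    have h2 : ((sAlg P).p.eval x.length : ℕ) = P.eval x.length + 2 := by
      show (P + 2).eval x.length = _
      simp
    unfold Alg.out
    rw [h2]
    exact h1
  · rw [← hl x]
    show _ ↔ [(s x).getLast?.getD false] = [true]
    cases h1 : (s x).getLast? with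
    | none => simp
    | some b => simp

end Pool.Agent.W585.CS.CSSEA
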